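import Pool.Agent.Helper93.PL.St

set_option autoImplicit false

namespace Pool.Agent.Helper63.PL

open Finset
open Pool.Agent.Helper61.PV
open Pool.Agent.Helper93.PL

private theorem ev_lin {d : ℕ} (W : ℤ) (F g : Fin (d + 1) → ℤ) (m : ℤ) :
    ev (lin W F g) m = ev F m + W * ev g m := by
  unfold ev lin
  rw [mul_sum, ← sum_add_distrib]
  refine sum_congr rfl fun i _ => ?_
  ring

theorem hCl1 (hNus : StNus) (hSzr : StSzr) : Pool.Agent.Helper93.PL.StCl1 := by
  intro k W μ x κ δ hW hμ hμx hκ hκ4 hδ hδ1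
  obtain ⟨H1, hH1⟩ := hNus μ x κ δ hμ hμx.le hκ (by linarith) hδ hδ1
  refine ⟨max (max H1 1) (⌈4 * (W + 1) / κ⌉₊), fun H hH d hd F A h hC g hg => ?_⟩
  have hHa : H1 ≤ H := (le_max_left _ _).trans ((le_max_left _ _).trans hH)
  have hHb : 1 ≤ H := (le_max_right _ _).trans ((le_max_left _ _).trans hH)
  have hHc : 4 * ((W : ℝ) + 1) / κ ≤ H := (Nat.le_ceil _).trans (by exact_mod_cast (le_max_right _ _).trans hH)
  have hHr : (1 : ℝ) ≤ H := by exact_mod_cast hHb
  have hdr : (1 : ℝ) ≤ d := by exact_mod_cast hd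
  have hbig : (W : ℝ) + 1 ≤ κ * H / 4 := by
    rw [div_le_iff₀ hκ] at hHc
    linarith
  have hS0 : 0 ≤ Sz H d := by
    unfold Sz
    have h1 : 0 ≤ Real.log H := Real.log_nonneg hHr
    have h2 : 0 ≤ Real.log (d + Real.log H) := Real.log_nonneg (by linarith)
    positivity
  -- the values
  have hval : ∀ m : ℕ, μ * Sz H d < m → (m : ℝ) ≤ x * Sz H d → 1 ≤ m ∧
      κ * H * (m : ℝ) ^ d / 4 ≤ ev (lin W F g) m ∧ ((ev (lin W F g) m : ℤ) : ℝ) ≤ 4 * H * (m : ℝ) ^ d ∧
      (1 - δ) * Sz H d ≤ Real.log (κ * H * (m : ℝ) ^ d / 4) ∧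
      Real.log (4 * H * (m : ℝ) ^ d) ≤ (1 + δ) * Sz H d := by
    intro m hm1 hm2
    obtain ⟨n1, n2, n3⟩ := hH1 H hHa d hd m hm1.le hm2
    have hm : (1 : ℝ) ≤ m := by
      have : 0 < 8 / κ := by positivity
      linarith
    obtain ⟨s1, s2⟩ := hSzr W H d m 0 κ (1 / 2) F A h hW hHb hκ (by linarith) (by norm_num) le_rfl hC n1
      (by
        have : 0 ≤ 2 * (1 / 2 : ℝ) * (κ * H / W) := by positivity
        simpa using this) g (fun i => by
        have h1 := Fintype.mem_piFinset.1 hg i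
        rw [mem_Ico] at h1
        simpa using h1)
    exact ⟨by exact_mod_cast hm, s1, s2, n2, n3⟩
  have hthz : ∀ m : ℕ, μ * Sz H d < m → (m : ℝ) ≤ x * Sz H d → (ev (lin W F g) m).toNat.Prime →
      Nat.Coprime (ev F m).natAbs W ∧ (1 - δ) * Sz H d ≤ thz (ev (lin W F g) m) ∧
      thz (ev (lin W F g) m) ≤ (1 + δ) * Sz H d := by
    intro m hm1 hm2 hp
    obtain ⟨m1, s1, s2, n2, n3⟩ := hval m hm1 hm2
    have hmr : (1 : ℝ) ≤ m := by exact_mod_cast m1
    have hmd : (1 : ℝ) ≤ (m : ℝ) ^ d := one_le_pow₀ hmr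
    have hpos : 0 < κ * H * (m : ℝ) ^ d / 4 := by positivity
    have hcast : (((ev (lin W F g) m).toNat : ℕ) : ℝ) = ((ev (lin W F g) m : ℤ) : ℝ) := by
      have h0 : 0 ≤ ev (lin W F g) m := by
        have : (0 : ℝ) ≤ ((ev (lin W F g) m : ℤ) : ℝ) := hpos.le.trans s1
        exact_mod_cast this
      have h1 : (((ev (lin W F g) m).toNat : ℕ) : ℤ) = ev (lin W F g) m := Int.toNat_of_nonneg h0
      exact_mod_cast congrArg (fun z : ℤ => (z : ℝ)) h1
    refine ⟨?_, ?_, ?_⟩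
    · have h0 : 0 ≤ ev (lin W F g) m := by
        have : (0 : ℝ) ≤ ((ev (lin W F g) m : ℤ) : ℝ) := hpos.le.trans s1
        exact_mod_cast this
      have hWp : W < (ev (lin W F g) m).toNat := by
        have h1 : (W : ℝ) < (((ev (lin W F g) m).toNat : ℕ) : ℝ) := by
          rw [hcast]
          have h2 : κ * H / 4 * 1 ≤ κ * H / 4 * (m : ℝ) ^ d := mul_le_mul_of_nonneg_left hmd (by positivity)
          have h3 : κ * H / 4 * (m : ℝ) ^ d = κ * H * (m : ℝ) ^ d / 4 := by ring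
          linarith
        exact_mod_cast h1
      have hco : Nat.Coprime (ev (lin W F g) m).toNat W := by
        rw [Nat.Prime.coprime_iff_not_dvd hp]
        intro hdv
        exact absurd (Nat.le_of_dvd (by omega) hdv) (by omega)
      have hco2 : IsCoprime (ev (lin W F g) m) (W : ℤ) := by
        have h1 : (((ev (lin W F g) m).toNat : ℕ) : ℤ) = ev (lin W F g) m := Int.toNat_of_nonneg h0
        rw [← h1]
        exact Nat.isCoprime_iff_coprime.2 hco
      rw [ev_lin] at hco2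
      have hco3 : IsCoprime (ev F m) (W : ℤ) := by
        have := IsCoprime.add_mul_left_left_iff (x := ev F m) (y := (W : ℤ)) (z := ev g m)
        exact this.1 hco2
      have h2 := Int.isCoprime_iff_gcd_eq_one.1 hco3
      rw [Int.gcd_def] at h2
      simpa using h2
    · unfold thz Pool.Agent.Helper48.BK.th
      rw [if_pos hp, hcast]
      exact n2.trans (Real.log_le_log hpos s1)
    · unfold thz Pool.Agent.Helper48.BK.th
      rw [if_pos hp, hcast]
      exact (Real.log_le_log (hpos.trans_le s1) s2).trans n3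
  -- the set of prime points
  set P : Finset ℕ := (al W F (μ * Sz H d) (x * Sz H d)).filter (fun m : ℕ => (ev (lin W F g) m).toNat.Prime)
    with hP
  have hfl : ∀ m : ℕ, m ∈ range (⌊x * Sz H d⌋₊ + 1) → (m : ℝ) ≤ x * Sz H d := by
    intro m hm
    have h1 : m ≤ ⌊x * Sz H d⌋₊ := Nat.lt_succ_iff.1 (mem_range.1 hm)
    have h2 : 0 ≤ x * Sz H d := mul_nonneg (by linarith) hS0
    exact (Nat.cast_le.2 h1).trans (Nat.floor_le h2)
  have hcard : nP (lin W F g) (μ * Sz H d) (x * Sz H d) = #P := by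
    unfold nP
    congr 1
    ext m
    rw [hP, mem_filter, mem_filter, al, mem_filter]
    constructor
    · rintro ⟨h1, h2, h3⟩
      exact ⟨⟨h1, h2, (hthz m h2 (hfl m h1) h3).1⟩, h3⟩
    · rintro ⟨⟨h1, h2, _⟩, h3⟩
      exact ⟨h1, h2, h3⟩
  have hsum : ∑ T ∈ (al W F (μ * Sz H d) (x * Sz H d)).powersetCard k, ∏ m ∈ T, thz (ev (lin W F g) m) =
      ∑ T ∈ P.powersetCard k, ∏ m ∈ T, thz (ev (lin W F g) m) := by
    symm
    apply sum_subset (powersetCard_mono (filter_subset _ _))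
    intro T hT hT'
    rw [mem_powersetCard] at hT hT'
    have h1 : ¬ T ⊆ P := fun h => hT' ⟨h, hT.2⟩
    obtain ⟨m, hm, hmP⟩ := not_subset.1 h1
    refine prod_eq_zero hm ?_
    have h2 : ¬ (ev (lin W F g) m).toNat.Prime := fun h3 => hmP (mem_filter.2 ⟨hT.1 hm, h3⟩)
    unfold thz Pool.Agent.Helper48.BK.th
    rw [if_neg h2]
  have hbd : ∀ m ∈ P, (1 - δ) * Sz H d ≤ thz (ev (lin W F g) m) ∧ thz (ev (lin W F g) m) ≤ (1 + δ) * Sz H d := by
    intro m hm
    rw [hP, mem_filter, al, mem_filter] at hm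
    exact (hthz m hm.1.2.1 (hfl m hm.1.1) hm.2).2
  have hlo0 : 0 ≤ (1 - δ) * Sz H d := mul_nonneg (by linarith) hS0
  rw [hsum, hcard]
  constructor
  · have h1 := card_nsmul_le_sum (P.powersetCard k) (fun T => ∏ m ∈ T, thz (ev (lin W F g) m))
      (((1 - δ) * Sz H d) ^ k) (fun T hT => by
        rw [mem_powersetCard] at hT
        calc ((1 - δ) * Sz H d) ^ k = ∏ _m ∈ T, (1 - δ) * Sz H d := by rw [prod_const, hT.2]
          _ ≤ _ := prod_le_prod (fun _ _ => hlo0) fun m hm => (hbd m (hT.1 hm)).1)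
    rw [card_powersetCard, nsmul_eq_mul] at h1
    rw [mul_comm]
    exact h1
  · have h1 := sum_le_card_nsmul (P.powersetCard k) (fun T => ∏ m ∈ T, thz (ev (lin W F g) m))
      (((1 + δ) * Sz H d) ^ k) (fun T hT => by
        rw [mem_powersetCard] at hT
        calc _ ≤ ∏ _m ∈ T, (1 + δ) * Sz H d :=
              prod_le_prod (fun m hm => hlo0.trans (hbd m (hT.1 hm)).1) fun m hm => (hbd m (hT.1 hm)).2
          _ = ((1 + δ) * Sz H d) ^ k := by rw [prod_const, hT.2])
    rw [card_powersetCard, nsmul_eq_mul] at h1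
    rw [mul_comm (((1 + δ) * Sz H d) ^ k)]
    exact h1

end Pool.Agent.Helper63.PL
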